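import Mathlib

namespace Pool.Agent.Results.MP_966169_pr.Ratio

open MeasureTheory Set Real Filter Topology

/-- the tail ratio `R(z)` of two independent copies with law `μ` -/
noncomputable def R (μ : Measure ℝ) (z : ℝ) : ℝ :=
  (μ.prod μ).real {p | 2 * z ≤ p.1 + p.2 ∧ min p.1 p.2 ≤ z} /
    (μ.prod μ).real {p | 2 * z ≤ p.1 + p.2 ∧ z ≤ min p.1 p.2}

noncomputable def f (x : ℝ) : ℝ := (3 + x) / 4 * exp (-x)

noncomputable def G (x : ℝ) : ℝ := (4 + x) / 4 * exp (-x)

noncomputable def μ₀ : Measure ℝ :=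
  (volume.restrict (Ioi 0)).withDensity fun x => ENNReal.ofReal (f x)

theorem f_meas : Measurable f := by unfold f; fun_prop

theorem poly (a b c : ℝ) : Tendsto (fun x => (a + b * x + c * x ^ 2) * exp (-x)) atTop (𝓝 0) := by
  have h := (((tendsto_pow_mul_exp_neg_atTop_nhds_zero 0).const_mul a).add
    ((tendsto_pow_mul_exp_neg_atTop_nhds_zero 1).const_mul b)).add
    ((tendsto_pow_mul_exp_neg_atTop_nhds_zero 2).const_mul c)
  simp only [mul_zero, add_zero] at h
  exact h.congr fun x => by ring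

theorem dexp (x : ℝ) : HasDerivAt (fun x => exp (-x)) (-exp (-x)) x := by
  simpa using (hasDerivAt_neg x).exp

theorem f_int (a : ℝ) (ha : 0 ≤ a) : IntegrableOn f (Ioi a) ∧ ∫ x in Ioi a, f x = G a := by
  have h1 : ∀ x ∈ Ici a, HasDerivAt (fun x => -G x) (f x) x := fun x _ =>
    (((((hasDerivAt_id x).const_add 4).div_const 4).mul (dexp x)).neg).congr_deriv (by
      simp only [f, id]; ring)
  have h2 : Tendsto (fun x => -G x) atTop (𝓝 0) :=
    (poly (-1) (-1 / 4) 0).congr fun x => by unfold G; ring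
  have h3 : ∀ x ∈ Ioi a, 0 ≤ f x := fun x hx => by
    have : 0 < x := ha.trans_lt hx
    unfold f; positivity
  exact ⟨integrableOn_Ioi_deriv_of_nonneg' h1 h3 h2, by
    rw [integral_Ioi_of_hasDerivAt_of_nonneg' h1 h3 h2]; simp⟩

theorem ac : μ₀ ≪ volume :=
  (withDensity_absolutelyContinuous _ _).trans Measure.absolutelyContinuous_restrict

theorem tail (a : ℝ) (ha : 0 ≤ a) : μ₀ (Ioi a) = ENNReal.ofReal (G a) := by
  rw [μ₀, withDensity_apply _ measurableSet_Ioi, Measure.restrict_restrict measurableSet_Ioi,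
    Ioi_inter_Ioi, sup_eq_left.2 ha, ← (f_int a ha).2, ofReal_integral_eq_lintegral_ofReal
    (f_int a ha).1]
  refine (ae_restrict_iff' measurableSet_Ioi).2 (Eventually.of_forall fun x hx => ?_)
  have : 0 < x := ha.trans_lt hx
  unfold f; positivity

theorem tail' (a : ℝ) (ha : 0 ≤ a) : μ₀ (Ici a) = ENNReal.ofReal (G a) := by
  rw [← tail a ha]
  exact measure_congr (ac.ae_eq Ioi_ae_eq_Ici).symm

theorem neg : μ₀ (Iic 0) = 0 := by
  rw [μ₀, withDensity_apply _ measurableSet_Iic, Measure.restrict_restrict measurableSet_Iic,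
    Iic_inter_Ioi]
  simp

instance : IsProbabilityMeasure μ₀ := ⟨by
  rw [← Iic_union_Ioi (a := (0 : ℝ)), measure_union (Iic_disjoint_Ioi le_rfl) measurableSet_Ioi,
    neg, tail 0 le_rfl]
  simp [G]⟩

theorem mean : Integrable id μ₀ ∧ ∫ x, x ∂μ₀ = 5 / 4 := by
  have h1 : ∀ x ∈ Ici (0 : ℝ), HasDerivAt (fun x => (-5 / 4 + -5 / 4 * x + -1 / 4 * x ^ 2) *
      exp (-x)) (f x * x) x := fun x _ =>
    ((((((hasDerivAt_id x).const_mul (-5 / 4)).const_add (-5 / 4)).add
      ((hasDerivAt_pow 2 x).const_mul (-1 / 4))).mul (dexp x))).congr_deriv (by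
      simp only [f, id, Pi.add_apply]; push_cast; ring)
  have h3 : ∀ x ∈ Ioi (0 : ℝ), 0 ≤ f x * x := fun x hx => by
    have : 0 < x := hx
    unfold f; positivity
  have h4 : ∀ᵐ x ∂volume.restrict (Ioi (0 : ℝ)), (ENNReal.ofReal (f x)).toReal = f x :=
    (ae_restrict_iff' measurableSet_Ioi).2 (Eventually.of_forall fun x hx => by
      have : 0 < x := hx
      exact ENNReal.toReal_ofReal (by unfold f; positivity))
  constructor
  · rw [μ₀, integrable_withDensity_iff f_meas.ennreal_ofReal (by simp)]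
    refine (integrableOn_Ioi_deriv_of_nonneg' h1 h3 (poly _ _ _)).congr ?_
    filter_upwards [h4] with x hx
    rw [hx, mul_comm, id]
  · rw [μ₀, integral_withDensity_eq_integral_toReal_smul f_meas.ennreal_ofReal (by simp),
      integral_congr_ae (g := fun x => f x * x) (by
        filter_upwards [h4] with x hx
        rw [hx, smul_eq_mul]), integral_Ioi_of_hasDerivAt_of_nonneg' h1 h3 (poly _ _ _)]
    norm_num

theorem half (z : ℝ) (hz : 0 < z) : μ₀.prod μ₀ {p | p.1 ≤ z ∧ 2 * z - p.1 ≤ p.2} =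
    ENNReal.ofReal (exp (-z) ^ 2 / 16 * (12 * z + 13 / 2 * z ^ 2 + 2 / 3 * z ^ 3)) := by
  have hm : MeasurableSet {p : ℝ × ℝ | p.1 ≤ z ∧ 2 * z - p.1 ≤ p.2} := by measurability
  have e : ∀ x, μ₀ (Prod.mk x ⁻¹' {p : ℝ × ℝ | p.1 ≤ z ∧ 2 * z - p.1 ≤ p.2}) =
      (Iic z).indicator (fun x => ENNReal.ofReal (G (2 * z - x))) x := fun x => by
    by_cases h : x ≤ z
    · rw [indicator_of_mem (mem_Iic.2 h), ← tail' _ (by linarith)]
      congr 1
      ext y
      simp [h]
    · rw [indicator_of_notMem (by simpa using h)]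
      simp [h]
  have hG : Measurable fun x => ENNReal.ofReal (G (2 * z - x)) := by unfold G; fun_prop
  rw [Measure.prod_apply hm]
  simp only [e]
  rw [lintegral_indicator measurableSet_Iic, μ₀, restrict_withDensity measurableSet_Iic,
    lintegral_withDensity_eq_lintegral_mul _ f_meas.ennreal_ofReal hG,
    Measure.restrict_restrict measurableSet_Iic, Iic_inter_Ioi]
  have h1 : ∀ x ∈ Ioc 0 z, ((fun x => ENNReal.ofReal (f x)) *
      fun x => ENNReal.ofReal (G (2 * z - x))) x = ENNReal.ofReal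
      (exp (-z) ^ 2 / 16 * ((3 + x) * (4 + 2 * z - x))) := fun x hx => by
    have := hx.1
    rw [Pi.mul_apply, ← ENNReal.ofReal_mul (by unfold f; positivity)]
    congr 1
    have : exp (-x) * exp (-(2 * z - x)) = exp (-z) ^ 2 := by
      rw [← exp_add, ← exp_nat_mul]; congr 1; push_cast; ring
    unfold f G
    linear_combination (3 + x) * (4 + 2 * z - x) / 16 * this
  rw [setLIntegral_congr_fun measurableSet_Ioc h1, ← ofReal_integral_eq_lintegral_ofReal
    (Continuous.integrableOn_Ioc (by fun_prop)), ← intervalIntegral.integral_of_le hz.le]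
  · congr 1
    rw [intervalIntegral.integral_const_mul, intervalIntegral.integral_eq_sub_of_hasDerivAt
      (f := fun x => 3 * (4 + 2 * z) * x + (1 + 2 * z) / 2 * x ^ 2 - 1 / 3 * x ^ 3) (fun x _ =>
        ((((hasDerivAt_id x).const_mul _).add ((hasDerivAt_pow 2 x).const_mul _)).sub
          ((hasDerivAt_pow 3 x).const_mul _)).congr_deriv (by push_cast; ring))
      (Continuous.intervalIntegrable (by fun_prop) _ _)]
    ring
  · refine (ae_restrict_iff' measurableSet_Ioc).2 (Eventually.of_forall fun x hx => ?_)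
    have h1 := hx.1
    have h2 : 0 < 4 + 2 * z - x := by linarith [hx.2]
    positivity

theorem bound (z : ℝ) (hz : 0 < z) : R μ₀ z < 2 * z * (77 / 100) := by
  have hd : (μ₀.prod μ₀).real {p | 2 * z ≤ p.1 + p.2 ∧ z ≤ min p.1 p.2} = G z ^ 2 := by
    have : {p : ℝ × ℝ | 2 * z ≤ p.1 + p.2 ∧ z ≤ min p.1 p.2} = Ici z ×ˢ Ici z := by
      ext p
      simp only [mem_ofPred_eq, le_min_iff, mem_prod, mem_Ici]
      exact ⟨fun h => h.2, fun h => ⟨by linarith [h.1, h.2], h⟩⟩
    rw [this, measureReal_def, Measure.prod_prod, tail' z hz.le, ENNReal.toReal_mul,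
      ENNReal.toReal_ofReal (by unfold G; positivity), sq]
  have hm : MeasurableSet {p : ℝ × ℝ | p.1 ≤ z ∧ 2 * z - p.1 ≤ p.2} := by measurability
  have h1 : (μ₀.prod μ₀).real {p | p.1 ≤ z ∧ 2 * z - p.1 ≤ p.2} =
      exp (-z) ^ 2 / 16 * (12 * z + 13 / 2 * z ^ 2 + 2 / 3 * z ^ 3) := by
    rw [measureReal_def, half z hz, ENNReal.toReal_ofReal (by positivity)]
  have h2 := (Measure.measurePreserving_swap (μ := μ₀) (ν := μ₀)).measureReal_preimage
    hm.nullMeasurableSet
  have h3 : (μ₀.prod μ₀).real {p | 2 * z ≤ p.1 + p.2 ∧ min p.1 p.2 ≤ z} ≤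
      (μ₀.prod μ₀).real {p | p.1 ≤ z ∧ 2 * z - p.1 ≤ p.2} +
      (μ₀.prod μ₀).real (Prod.swap ⁻¹' {p | p.1 ≤ z ∧ 2 * z - p.1 ≤ p.2}) := by
    refine le_trans (measureReal_mono fun p hp => ?_) (measureReal_union_le _ _)
    simp only [mem_ofPred_eq, min_le_iff, mem_union, mem_preimage, Prod.fst_swap,
      Prod.snd_swap] at hp ⊢
    exact hp.2.imp (fun h => ⟨h, by linarith [hp.1]⟩) fun h => ⟨h, by linarith [hp.1]⟩
  rw [R, hd, div_lt_iff₀ (by unfold G; positivity)]
  refine h3.trans_lt ?_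
  rw [h2, h1, G]
  have h4 : 0 < exp (-z) ^ 2 * z * (32 / 100 - 34 / 100 * z + 31 / 300 * z ^ 2) :=
    mul_pos (by positivity) (by nlinarith [sq_nonneg (z - 5 / 3)])
  linarith

theorem result : ∃ μ : Measure ℝ, IsProbabilityMeasure μ ∧ μ ≪ volume ∧ μ (Iio 0) = 0 ∧
    (∀ t, 0 < μ (Ioi t)) ∧ Integrable id μ ∧ (∃ m, 0 ≤ m ∧ μ.real (Iic m) = 1 / 2) ∧
    (∀ m, 0 ≤ m → μ.real (Iic m) = 1 / 2 → ∀ z, 0 < z → R μ z < 2 * log 2 * z / m) ∧
    ∀ z, 0 < z → R μ z < 2 * z / ∫ x, x ∂μ := by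
  have hI : ∀ m, 0 ≤ m → μ₀.real (Iic m) = 1 - G m := fun m hm => by
    rw [← compl_Ioi, probReal_compl_eq_one_sub measurableSet_Ioi, measureReal_def, tail m hm,
      ENNReal.toReal_ofReal (by unfold G; positivity)]
  have h9 : G (9 / 10) < 1 / 2 := by
    have := sum_le_exp_of_nonneg (x := 9 / 10) (by norm_num) 5
    simp only [Finset.sum_range_succ, Finset.sum_range_zero, Nat.factorial] at this
    rw [G, exp_neg, ← div_eq_mul_inv, div_lt_iff₀ (exp_pos _)]
    norm_num at this ⊢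
    linarith
  refine ⟨μ₀, inferInstance, ac, measure_mono_null Iio_subset_Iic_self neg, fun t => ?_, mean.1,
    ?_, fun m hm h z hz => (bound z hz).trans_le ?_, fun z hz => (bound z hz).trans_le ?_⟩
  · refine lt_of_lt_of_le ?_ (measure_mono (Ioi_subset_Ioi (le_max_left t 0)))
    rw [tail _ (le_max_right _ _), ENNReal.ofReal_pos]
    unfold G; positivity
  · obtain ⟨m, hm, e⟩ := intermediate_value_Icc' (by norm_num : (0 : ℝ) ≤ 9 / 10)
      (f := G) (Continuous.continuousOn (by unfold G; fun_prop))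
      (show 1 / 2 ∈ Icc (G (9 / 10)) (G 0) from ⟨h9.le, by norm_num [G]⟩)
    exact ⟨m, hm.1, by rw [hI m hm.1, e]; norm_num⟩
  · have h1 : m ≤ 9 / 10 := by
      by_contra hc
      have := measureReal_mono (μ := μ₀) (Iic_subset_Iic.2 (not_le.1 hc).le)
      rw [h, hI _ (by norm_num)] at this
      linarith
    have h2 : 0 < m := hm.lt_of_ne (by
      rintro rfl
      rw [measureReal_def, neg] at h
      norm_num at h)
    rw [le_div_iff₀ h2]
    have := log_two_gt_d9
    nlinarith [mul_le_mul_of_nonneg_left h1 hz.le]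
  · rw [mean.2]
    linarith

end Pool.Agent.Results.MP_966169_pr.Ratio
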